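import Pool.Agent.helper79.HT.Final

set_option autoImplicit false

/-!
# A colouring of triples which no colouring of the positive integers can code (MP_e6cd9b_lc)
-/

namespace Pool.Agent.Results.MP_e6cd9b_lc.OmniscientHindman

open Finset

open Classical in
/-- the characteristic function of a set of natural numbers -/
noncomputable def chi (A : Set ℕ) : ℕ → ℕ := fun m => if m ∈ A then 1 else 0

/-- `B` computes `A` (Turing reducibility of sets of natural numbers) -/
def Computes (B A : Set ℕ) : Prop := TuringReducible (PFun.lift (chi A)) (PFun.lift (chi B))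

/-- `(A 0, A 1, A 2)` is an increasing polarized homogeneous triple for the colouring `f` of
increasing triples: the sets are infinite and all `f x₀ x₁ x₂` with `x₀ < x₁ < x₂`, `x i ∈ A i`, have
one and the same colour `i`. -/
def IsPolarized {k : ℕ} (f : ℕ → ℕ → ℕ → Fin k) (A : Fin 3 → Set ℕ) : Prop :=
  (∀ j, (A j).Infinite) ∧ ∃ i : Fin k, ∀ x₀ ∈ A 0, ∀ x₁ ∈ A 1, ∀ x₂ ∈ A 2,
    x₀ < x₁ → x₁ < x₂ → f x₀ x₁ x₂ = i

/-- `H` is an infinite set of positive integers and all sums of finitely many (at least one)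
distinct elements of `H` have the same colour -/
def IsHindman {l : ℕ} (c : ℕ → Fin l) (H : Set ℕ) : Prop :=
  H.Infinite ∧ (∀ m ∈ H, 0 < m) ∧
    ∃ i : Fin l, ∀ F : Finset ℕ, F.Nonempty → (F : Set ℕ) ⊆ H → c (∑ a ∈ F, a) = i

theorem rec_comp {O : Set (ℕ →. ℕ)} {f a : ℕ → ℕ} (hf : Nat.RecursiveIn O (PFun.lift f))
    (ha : Nat.RecursiveIn O (PFun.lift a)) :
    Nat.RecursiveIn O (PFun.lift fun n => f (a n)) :=
  (Nat.RecursiveIn.comp hf ha).of_eq fun n => by
    simp only [PFun.coe_val]
    exact Part.bind_some (a n) _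

theorem rec_pair {O : Set (ℕ →. ℕ)} {a b : ℕ → ℕ} (ha : Nat.RecursiveIn O (PFun.lift a))
    (hb : Nat.RecursiveIn O (PFun.lift b)) :
    Nat.RecursiveIn O (PFun.lift fun n => Nat.pair (a n) (b n)) :=
  (Nat.RecursiveIn.pair ha hb).of_eq fun n => by simp [PFun.lift, Seq.seq]

theorem rec_join {O : Set (ℕ →. ℕ)} {a b c : ℕ → ℕ} (ha : Nat.RecursiveIn O (PFun.lift a))
    (hb : Nat.RecursiveIn O (PFun.lift b)) (hc : Nat.RecursiveIn O (PFun.lift c)) :
    Nat.RecursiveIn O (PFun.lift fun n : ℕ => if n.unpair.1 = 0 then a n.unpair.2 else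
      if n.unpair.1 = 1 then b n.unpair.2 else c n.unpair.2) := by
  have u1 : Primrec (fun n : ℕ => n.unpair.1) := Primrec.fst.comp Primrec.unpair
  have u2 : Primrec (fun n : ℕ => n.unpair.2) := Primrec.snd.comp Primrec.unpair
  have hF : Primrec (fun p : ℕ => if p.unpair.1 = 0 then p.unpair.2.unpair.1 else
      if p.unpair.1 = 1 then p.unpair.2.unpair.2.unpair.1 else p.unpair.2.unpair.2.unpair.2) := by
    refine Primrec.ite (Primrec.eq.comp u1 (Primrec.const 0)) (u1.comp u2) ?_
    exact Primrec.ite (Primrec.eq.comp u1 (Primrec.const 1)) (u1.comp (u2.comp u2))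
      (u2.comp (u2.comp u2))
  have h1 : Nat.RecursiveIn O (PFun.lift fun n : ℕ => n.unpair.1) :=
    (Primrec.nat_iff.1 u1).recursiveIn
  have h2 : Nat.RecursiveIn O (PFun.lift fun n : ℕ => n.unpair.2) :=
    (Primrec.nat_iff.1 u2).recursiveIn
  have h := rec_comp (Primrec.nat_iff.1 hF).recursiveIn
    (rec_pair h1 (rec_pair (rec_comp ha h2) (rec_pair (rec_comp hb h2) (rec_comp hc h2))))
  refine h.of_eq fun n => ?_
  simp only [Nat.unpair_pair]

/-- There is a colouring `f` of the increasing triples with two colours such that every colouring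
`c` of the positive integers with finitely many colours (computable from `f` or not) has an infinite
homogeneous set `H` for all finite sums which computes no increasing polarized homogeneous triple of
`f`. -/
theorem result : ∃ f : ℕ → ℕ → ℕ → Fin 2, ∀ (l : ℕ) (c : ℕ → Fin l),
    ∃ H : Set ℕ, IsHindman c H ∧
      ¬ ∃ A : Fin 3 → Set ℕ, (∀ j, Computes H (A j)) ∧ IsPolarized f A := by
  classical
  obtain ⟨x, hx, hx'⟩ := Pool.Agent.helper79.HT.final
  refine ⟨fun a b c => ⟨x (Nat.pair a (Nat.pair b c)), by have := hx (Nat.pair a (Nat.pair b c)); omega⟩,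
    fun l c => ?_⟩
  obtain ⟨h, h1, h2, h3, h4, h5⟩ := hx' l (fun m => (c m : ℕ)) (fun m => (c m).2)
  have hchi : chi {m | h m = 1} = h := by
    funext m
    have := h1 m
    by_cases hm : h m = 1
    · simp [chi, hm]
    · simp only [chi, Set.mem_ofPred_eq, hm, if_false]
      omega
  obtain ⟨m0, hm0⟩ := h2.nonempty
  refine ⟨{m | h m = 1}, ⟨h2, fun m hm => h3 m hm, c (∑ a ∈ {m0}, a), fun F hF hFH => ?_⟩, ?_⟩
  · apply Fin.ext
    exact h4 F {m0} hF (Finset.singleton_nonempty m0) (fun a ha => hFH (Finset.mem_coe.2 ha))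
      (fun a ha => by rw [Finset.mem_singleton.1 ha]; exact hm0)
  · rintro ⟨A, hA, hinf, i, hi⟩
    apply h5
    have hA' : ∀ j, Nat.RecursiveIn {PFun.lift h} (PFun.lift (chi (A j))) := by
      intro j
      have := hA j
      rw [Computes, hchi] at this
      exact RecursiveIn.iff_nat.1 this
    refine ⟨_, RecursiveIn.iff_nat.2 (rec_join (hA' 0) (hA' 1) (hA' 2)), ?_, ?_⟩
    · intro j hj
      have key : ∀ (j : Fin 3), Set.Infinite {m : ℕ | (if (Nat.pair j m).unpair.1 = 0 then
          chi (A 0) (Nat.pair j m).unpair.2 else if (Nat.pair j m).unpair.1 = 1 then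
          chi (A 1) (Nat.pair j m).unpair.2 else chi (A 2) (Nat.pair j m).unpair.2) = 1} := by
        intro j
        refine (hinf j).mono fun m hm => ?_
        simp only [Set.mem_ofPred_eq, Nat.unpair_pair]
        fin_cases j <;> simp [chi] <;> exact hm
      exact key ⟨j, hj⟩
    · intro a b c' d e f hab hbc hde hef ga gb gc gd ge gf
      simp only [Nat.unpair_pair, chi] at ga gb gc gd ge gf
      have ma : a ∈ A 0 := by by_contra hn; simp [hn] at ga
      have mb : b ∈ A 1 := by by_contra hn; simp [hn] at gb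
      have mc : c' ∈ A 2 := by by_contra hn; simp [hn] at gc
      have md : d ∈ A 0 := by by_contra hn; simp [hn] at gd
      have me : e ∈ A 1 := by by_contra hn; simp [hn] at ge
      have mf : f ∈ A 2 := by by_contra hn; simp [hn] at gf
      have e1 := hi a ma b mb c' mc hab hbc
      have e2 := hi d md e me f mf hde hef
      have e3 := e1.trans e2.symm
      exact congrArg Fin.val e3

end Pool.Agent.Results.MP_e6cd9b_lc.OmniscientHindman
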